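import Pool.Agent.C4U.Stmts
import Pool.Agent.Helper60_C4F.KIT
import Pool.Agent.Helper69_C4F.Fld

/-!
# Row INI of squad C4U (MP_be2f05_lc): the word of the first state
-/

set_option autoImplicit false

namespace Pool.Agent.C4U.H81

open Pool.Agent.C4F (Lt cn NumF Kit)
open Pool.Agent.Helper53_CookLevin (PGen)
open Pool.Agent.Helper53_Chan (Test)
open Pool.Agent.C4F.H69 (gF hF gF_gen hF_gen gF_eq hF_eq comp1)

/-- the number `N` as the root of the length of the matrix -/
noncomputable def nf (z : List Lt) : ℕ :=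
  cn (fun v => (v + 1) * (v + 1) ≤ (hF z).length) (hF z).length

/-- `k` -/
def kf (z : List Lt) : ℕ := (gF z).length

/-- number of the letters of the register word -/
noncomputable def df (z : List Lt) : ℕ := (2 * kf z + kf z * (kf z - 1) / 2) * (nf z + 1)

/-- the first state -/
noncomputable def ini0 (z : List Lt) : List Lt :=
  gF z ++ ([Lt.bar] ++ (List.replicate (nf z) Lt.tick ++ ([Lt.bar] ++ (hF z ++ ([Lt.bar] ++
    (((List.range (nf z)).flatMap fun _ => [Lt.neg]) ++ ([Lt.bar] ++
      ((List.range (df z)).flatMap fun _ => [Lt.neg]))))))))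

theorem len_num (kit : Kit) {G : List Lt → List Lt}
    (hG : PGen 1 (fun ρ : Fin 1 → List Lt => G (ρ 0))) :
    NumF 1 (fun ρ : Fin 1 → List Lt => (G (ρ 0)).length) :=
  comp1 (G := fun w => List.replicate w.length Lt.tick) (kit.var 1 0) hG

theorem kf_num (kit : Kit) : NumF 1 (fun ρ : Fin 1 → List Lt => kf (ρ 0)) :=
  len_num kit gF_gen

theorem nf_num (kit : Kit) : NumF 1 (fun ρ : Fin 1 → List Lt => nf (ρ 0)) := by
  have h1 := len_num kit hF_gen
  have h2 : NumF 2 (fun ρ : Fin 2 → List Lt => (hF (ρ 1)).length) :=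
    kit.rename 1 2 (fun _ => 1) _ h1
  have h3 : NumF 2 (fun ρ : Fin 2 → List Lt => (ρ 0).length + 1) :=
    kit.add 2 _ _ (kit.var 2 0) (kit.cst 2 1)
  exact kit.cnt 1 (fun ρ => (hF (ρ 0)).length)
    (fun v ρ => (v + 1) * (v + 1) ≤ (hF (ρ 0)).length) h1
    (kit.le 2 _ _ (kit.mul 2 _ _ h3 h3) h2)

theorem df_num (kit : Kit) : NumF 1 (fun ρ : Fin 1 → List Lt => df (ρ 0)) := by
  have hk := kf_num kit
  have hn := nf_num kit
  exact kit.mul 1 _ _ (kit.add 1 _ _ (kit.mul 1 _ _ (kit.cst 1 2) hk)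
    (kit.div 1 _ _ (kit.mul 1 _ _ hk (kit.sub 1 _ _ hk (kit.cst 1 1))) (kit.cst 1 2)))
    (kit.add 1 _ _ hn (kit.cst 1 1))

theorem ini0_gen (kit : Kit) : PGen 1 (fun ρ : Fin 1 → List Lt => ini0 (ρ 0)) := by
  have b : PGen 1 (fun _ : Fin 1 → List Lt => [Lt.bar]) := PGen.const _
  have hneg : ∀ t : (Fin 1 → List Lt) → ℕ, NumF 1 t →
      PGen 1 (fun ρ : Fin 1 → List Lt => (List.range (t ρ)).flatMap fun _ => [Lt.neg]) :=
    fun t ht => kit.loop 1 t (fun _ _ => [Lt.neg]) ht (PGen.const _)
  exact PGen.append gF_gen (PGen.append b (PGen.append (nf_num kit) (PGen.append b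
    (PGen.append hF_gen (PGen.append b (PGen.append (hneg _ (nf_num kit)) (PGen.append b
      (hneg _ (df_num kit)))))))))

theorem cn_lt (n m : ℕ) (P : ℕ → Prop) (h : ∀ v, P v ↔ v < m) (hm : m ≤ n) : cn P n = m := by
  classical
  unfold cn
  rw [Nat.count_eq_card_filter_range]
  have h1 : (Finset.range n).filter P = Finset.range m := by
    ext v
    rw [Finset.mem_filter, Finset.mem_range, Finset.mem_range, h]
    omega
  calc _ = ((Finset.range n).filter P).card := by
        congr 1
    _ = m := by rw [h1, Finset.card_range]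

theorem flat_neg (n : ℕ) : ((List.range n).flatMap fun _ => [Lt.neg]) = List.replicate n Lt.neg := by
  induction n with
  | zero => rfl
  | succ n ih =>
    rw [List.range_succ, List.flatMap_append, ih, List.replicate_succ']
    rfl

/-- **INI** -/
theorem ini : IniStmt := by
  refine ⟨ini0, ini0_gen Pool.Agent.C4F.H60.kit, ?_⟩
  intro V m hJ hm
  obtain ⟨hlen, -, -⟩ := hm
  have hbar : Lt.bar ∉ List.replicate V.k Lt.tick := by
    intro h
    exact absurd (List.eq_of_mem_replicate h) (by decide)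
  have hg := gF_eq hbar m
  have hh := hF_eq hbar m
  set z : List Lt := List.replicate V.k Lt.tick ++ Lt.bar :: m with hz
  have hk : kf z = V.k := by
    unfold kf
    rw [hg, List.length_replicate]
  have hn : nf z = V.N := by
    unfold nf
    rw [hh, hlen]
    refine cn_lt _ _ _ (fun v => ?_) (Nat.le_mul_self _)
    constructor
    · intro h
      by_contra h1
      have h2 : V.N < v + 1 := by omega
      have h3 := Nat.mul_self_lt_mul_self h2
      omega
    · intro h
      exact Nat.mul_self_le_mul_self h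
  have hd : df z = V.dd * (V.N + 1) := by
    unfold df
    rw [hk, hn]
    rfl
  have hjw : jw V.N V.J = List.replicate V.N Lt.neg := by
    unfold jw
    rw [List.eq_replicate_iff]
    refine ⟨by simp, fun b hb => ?_⟩
    obtain ⟨v, -, rfl⟩ := List.mem_map.mp hb
    exact if_neg (hJ v)
  have hcw : cw V.dd (V.N + 1) (fun _ => 0) = List.replicate (V.dd * (V.N + 1)) Lt.neg := by
    unfold cw
    rw [List.eq_replicate_iff]
    refine ⟨?_, fun b hb => ?_⟩
    · rw [List.length_flatMap]
      simp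
    · obtain ⟨e, -, he⟩ := List.mem_flatMap.mp hb
      obtain ⟨u, -, rfl⟩ := List.mem_map.mp he
      exact if_neg (Nat.not_lt_zero u)
  unfold ini0
  rw [flat_neg, flat_neg, hg, hh, hn, hd]
  unfold jn
  show _ = List.replicate V.k Lt.tick ++ Lt.bar :: (List.replicate V.N Lt.tick ++ Lt.bar ::
    (m ++ Lt.bar :: (jw V.N V.J ++ Lt.bar :: cw V.dd (V.N + 1) (fun _ => 0))))
  rw [hjw, hcw]
  rfl

end Pool.Agent.C4U.H81
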