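import Pool.Agent.C4U.Stmts

/-!
# Row PRF of squad C4U (MP_be2f05_lc): initial parts of good states are good
-/

set_option autoImplicit false

namespace Pool.Agent.C4U.H81

open Pool.Agent.C4F (Lt cn NumF)

/-- **PRF** -/
theorem prf (stl : StlStmt) (_prs : PrsStmt) : PrfStmt := by
  intro V c n hc hok
  obtain ⟨-, -, -, h4, -⟩ := stl V.dd (V.N + 1) c (Nat.succ_le_succ (Nat.zero_le _)) hc
  obtain ⟨-, hl⟩ := h4 n
  have hpre : ∀ e, e < n → pre n c e = c e := fun e he => if_pos he
  obtain ⟨h1, h2⟩ := hok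
  refine ⟨?_, ?_⟩
  · intro e he he2
    rw [hl] at he
    have hen : e < n := lt_of_lt_of_le he (min_le_left _ _)
    rw [hpre e hen]
    exact h1 e (lt_of_lt_of_le he (min_le_right _ _)) he2
  · intro hk i hi
    rw [hl] at hk
    have hkn : 2 * V.k ≤ n := hk.trans (min_le_left _ _)
    have hkl : 2 * V.k ≤ ln V.dd c := hk.trans (min_le_right _ _)
    have hK : ∀ a, a < V.k → V.K (pre n c) a = V.K c a := by
      intro a ha
      funext v
      unfold Gr.K
      rw [hpre (2 * a) (by omega), hpre (2 * a + 1) (by omega)]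
    obtain ⟨x, hx, hKx, hL, hR⟩ := h2 hkl i hi
    refine ⟨x, hx, ?_, ?_, ?_⟩
    · rw [hK i hi]
      exact hKx
    · intro j hj hij hix
      rw [hl] at hix
      have h3 := hL j hj hij (lt_of_lt_of_le hix (min_le_right _ _))
      rw [hpre _ (lt_of_lt_of_le hix (min_le_left _ _))]
      unfold Gr.r at h3 ⊢
      rw [hK j hj]
      exact h3
    · intro j hj hij hix
      rw [hl] at hix
      have h3 := hR j hj hij (lt_of_lt_of_le hix (min_le_right _ _))
      rw [hpre _ (lt_of_lt_of_le hix (min_le_left _ _))]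
      unfold Gr.t at h3 ⊢
      rw [hK j hj, hK i hi]
      exact h3

end Pool.Agent.C4U.H81
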